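import Pool.Agent.Lib_helper53.SLPD.Ext
import Pool.Agent.Lib_helper53.SLPQ.Tri
import Pool.Agent.Lib_helper50.SLPQ.NearRoot

/-!
# Triangular systems: the equations, exact solutions are computed, critical values
-/

namespace Pool.Agent.SLPQ

open Polynomial

/-- A program applied to computed numbers. -/
theorem ext_run {P : List ℝ → Prop} (hP : Cl P) (p : SLP) {l : List ℝ} (hl : P l)
    (h0 : (0:ℝ) ∈ l) (u : List ℝ) (hu : ∀ a ∈ u, a = 1 ∨ a ∈ l) :
    ∃ l', Xt P l p.length l' ∧ ∀ a ∈ SLP.run p u, a = 1 ∨ a ∈ l' := by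
  induction p generalizing l u with
  | nil => exact ⟨l, Xt.refl hl _, hu⟩
  | cons c p ih =>
    obtain ⟨o, i, j⟩ := c
    rw [SLP.run]
    obtain ⟨l1, h1, h2⟩ := ext_op hP hl o (getD_mem1 h0 hu i) (getD_mem1 h0 hu j)
    obtain ⟨l2, h3, h4⟩ := ih h1.1 (h1.2.2 0 h0) (u ++ [o.app (u.getD i 0) (u.getD j 0)]) (by
      intro a ha
      rcases List.mem_append.1 ha with h | h
      · exact h1.mem (hu a h)
      · rw [List.mem_singleton] at h
        rw [h]; exact h2)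
    exact ⟨l2, (h1.trans h3).le (by rw [List.length_cons]; omega), h4⟩

/-- The value of a program applied to computed numbers. -/
theorem ext_val {P : List ℝ → Prop} (hP : Cl P) (p : SLP) {l : List ℝ} (hl : P l)
    (h0 : (0:ℝ) ∈ l) (u : List ℝ) (hu : ∀ a ∈ u, a = 1 ∨ a ∈ l) :
    ∃ l', Xt P l p.length l' ∧ (p.val u = 1 ∨ p.val u ∈ l') := by
  obtain ⟨l', h1, h2⟩ := ext_run hP p hl h0 u hu
  exact ⟨l', h1, val_mem1 (h1.2.2 0 h0) p u h2⟩

/-! ### monic polynomials with given coefficients -/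

/-- The monic polynomial of degree `d` with the coefficients `c 0, …, c (d - 1)`. -/
noncomputable def mpol (d : ℕ) (c : ℕ → ℝ) : ℝ[X] :=
  X ^ d + ∑ j ∈ Finset.range d, C (c j) * X ^ j

theorem mpol_eval (d : ℕ) (c : ℕ → ℝ) (t : ℝ) :
    (mpol d c).eval t = t ^ d + ∑ j ∈ Finset.range d, c j * t ^ j := by
  rw [mpol, eval_add, eval_pow, eval_X, eval_finsetSum]
  congr 1
  refine Finset.sum_congr rfl fun j _ => ?_
  rw [eval_mul, eval_C, eval_pow, eval_X]

theorem mpol_coeff (d : ℕ) (c : ℕ → ℝ) (n : ℕ) :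
    (mpol d c).coeff n = if n = d then 1 else if n < d then c n else 0 := by
  rw [mpol, coeff_add, coeff_X_pow, finsetSum_coeff]
  have h : ∀ j ∈ Finset.range d, (C (c j) * X ^ j : ℝ[X]).coeff n = if n = j then c j else 0 := by
    intro j _
    rw [coeff_C_mul, coeff_X_pow]
    split_ifs <;> simp
  rw [Finset.sum_congr rfl h, Finset.sum_ite_eq]
  by_cases h1 : n = d
  · subst h1; simp
  · simp [h1]

theorem mpol_natDegree (d : ℕ) (c : ℕ → ℝ) : (mpol d c).natDegree = d := by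
  refine natDegree_eq_of_le_of_coeff_ne_zero ?_ ?_
  · rw [natDegree_le_iff_coeff_eq_zero]
    intro n hn
    rw [mpol_coeff, if_neg (by omega), if_neg (by omega)]
  · rw [mpol_coeff, if_pos rfl]; exact one_ne_zero

theorem mpol_monic (d : ℕ) (c : ℕ → ℝ) : (mpol d c).Monic := by
  rw [Monic, leadingCoeff, mpol_natDegree, mpol_coeff, if_pos rfl]

theorem mpol_mem {d : ℕ} {c : ℕ → ℝ} {l : List ℝ} (h0 : (0:ℝ) ∈ l)
    (h : ∀ j < d, c j = 1 ∨ c j ∈ l) (n : ℕ) :
    (mpol d c).coeff n = 1 ∨ (mpol d c).coeff n ∈ l := by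
  rw [mpol_coeff]
  split_ifs with h1 h2
  · exact Or.inl rfl
  · exact h n h2
  · exact Or.inr h0

/-! ### critical values -/

theorem ext_div {D : ℕ} {l : List ℝ} (hl : Al D True l) {a b : ℝ} (ha : a = 1 ∨ a ∈ l)
    (hb : b = 1 ∨ b ∈ l) (h0 : b ≠ 0) : ∃ l', Xt (Al D True) l 1 l' ∧ (a / b = 1 ∨ a / b ∈ l') :=
  ⟨a / b :: l, ⟨.div trivial hl ha hb h0, by simp, fun a ha => List.mem_cons_of_mem _ ha⟩,
    Or.inr List.mem_cons_self⟩

/-- Critical values are computed. -/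
theorem ext_crit {D : ℕ} {l : List ℝ} (hl : Al D True l) (h0 : (0:ℝ) ∈ l) (p : ℝ[X])
    (hm : p.Monic) (hd : p.natDegree ≤ D) (hd1 : 1 ≤ p.natDegree)
    (hp : ∀ n, p.coeff n = 1 ∨ p.coeff n ∈ l) {u : ℝ} (hu : (derivative p).eval u = 0) :
    ∃ l', Xt (Al D True) l (8 * D + 4) l' ∧ (p.eval u = 1 ∨ p.eval u ∈ l') := by
  have hP := Al.cl D True
  obtain ⟨d, hdd⟩ : ∃ d, d = p.natDegree := ⟨_, rfl⟩
  rw [← hdd] at hd hd1
  obtain ⟨l1, h1, h2⟩ := ext_der hP hl h0 p hdd.ge hp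
  obtain ⟨l2, h3, h4⟩ := ext_nat hP h1.1 (h1.2.2 0 h0) d d Nat.lt_two_pow_self
  have hdR : (d:ℝ) ≠ 0 := by
    have : d ≠ 0 := by omega
    exact_mod_cast this
  obtain ⟨l3, h5, h6⟩ := ext_family h3.1 1 (fun j => (derivative p).coeff j / d) d (by
    intro j _ l₁ hl₁ hsub
    exact ext_div hl₁ (mem1_of (h3.mem (h2 j)) hsub) (mem1_of h4 hsub) hdR)
  set g : ℝ[X] := C (d:ℝ)⁻¹ * derivative p with hg
  have hgc : ∀ n, g.coeff n = (derivative p).coeff n / d := by
    intro n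
    rw [hg, coeff_C_mul, div_eq_inv_mul]
  have hlead : (derivative p).coeff (d - 1) = d := by
    rw [coeff_derivative, show d - 1 + 1 = d by omega]
    have : p.coeff d = 1 := by rw [hdd]; exact hm.coeff_natDegree
    rw [this, one_mul]
    have : ((d - 1 : ℕ) : ℝ) = d - 1 := by
      rw [Nat.cast_sub hd1, Nat.cast_one]
    rw [this]; ring
  have hgd : g.natDegree = d - 1 := by
    refine natDegree_eq_of_le_of_coeff_ne_zero ?_ ?_
    · rw [natDegree_le_iff_coeff_eq_zero]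
      intro n hn
      rw [hgc, coeff_derivative, coeff_eq_zero_of_natDegree_lt (by omega), zero_mul, zero_div]
    · rw [hgc, hlead, div_self hdR]; exact one_ne_zero
  have hgm : g.Monic := by
    rw [Monic, leadingCoeff, hgd, hgc, hlead, div_self hdR]
  have hroot : Al D True (u :: l3) := by
    refine .root g h5.1 hgm (by omega) ?_ ?_
    · intro n
      rcases lt_or_ge n d with h | h
      · rw [hgc]; exact h6 n h
      · rw [coeff_eq_zero_of_natDegree_lt (by omega)]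
        exact Or.inr (h5.2.2 0 (h3.2.2 0 (h1.2.2 0 h0)))
    · rw [hg, eval_mul, hu, mul_zero]
  have x4 : Xt (Al D True) l3 1 (u :: l3) :=
    ⟨hroot, by simp, fun a ha => List.mem_cons_of_mem _ ha⟩
  have x := ((h1.trans h3).trans h5).trans x4
  obtain ⟨l5, h7, h8⟩ := ext_eval hP hroot (x.2.2 0 h0) p hdd.ge
    (fun n => x.mem (hp n)) (x := u) (Or.inr List.mem_cons_self)
  exact ⟨l5, (x.trans h7).le (by omega), h8⟩

/-! ### the equations -/

/-- The `i`-th equation. -/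
noncomputable def dpol (d : ℕ → ℕ) (q : ℕ → ℕ → SLP) (x : List Bool) (z : ℕ → ℝ) (i : ℕ) : ℝ[X] :=
  mpol (d i) fun j => (q i j).val (ini x z i)

theorem dpol_congr (d : ℕ → ℕ) (q : ℕ → ℕ → SLP) (x : List Bool) {z z' : ℕ → ℝ} {i : ℕ}
    (h : ∀ j < i, z j = z' j) : dpol d q x z i = dpol d q x z' i := by
  rw [dpol, dpol, ini_congr x h]

/-- The coefficients of the next equation. -/
theorem ext_coeffs {P : List ℝ → Prop} (hP : Cl P) (d : ℕ → ℕ) (q : ℕ → ℕ → SLP) (x : List Bool)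
    {s : ℕ} (z : ℕ → ℝ) (i : ℕ) (hd : d i ≤ s) (hq : ∀ j < d i, (q i j).length ≤ s) {l : List ℝ}
    (hl : P l) (h0 : (0:ℝ) ∈ l) (hz : ∀ j < i, z j = 1 ∨ z j ∈ l) :
    ∃ l', Xt P l (s * s) l' ∧ ∀ j < d i, (q i j).val (ini x z i) = 1 ∨
      (q i j).val (ini x z i) ∈ l' := by
  obtain ⟨l', h1, h2⟩ := ext_family hl s (fun j => (q i j).val (ini x z i)) (d i) (by
    intro j hj l₁ hl₁ hsub
    obtain ⟨l2, h3, h4⟩ := ext_val hP (q i j) hl₁ (hsub 0 h0) (ini x z i)
      (ini_mem1 (hsub 0 h0) x z i fun j hj => mem1_of (hz j hj) hsub)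
    exact ⟨l2, h3.le (hq j hj), h4⟩)
  exact ⟨l', h1.le (Nat.mul_le_mul_right _ hd), h2⟩

/-- Exact solutions are computed. -/
theorem dchain (x : List Bool) (d : ℕ → ℕ) (q : ℕ → ℕ → SLP) {s : ℕ} (z : ℕ → ℝ) (k : ℕ)
    (hq : ∀ i < k, d i ≤ s ∧ ∀ j < d i, (q i j).length ≤ s)
    (hz : ∀ i < k, (dpol d q x z i).eval (z i) = 0) :
    ∃ l, Al s True l ∧ (0:ℝ) ∈ l ∧ l.length ≤ 1 + k * (s * s + 1) ∧
      ∀ i < k, z i = 1 ∨ z i ∈ l := by
  induction k with
  | zero =>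
    refine ⟨[Op.sub.app 1 1], .op .sub .nil (Or.inl rfl) (Or.inl rfl), by simp [Op.app],
      by simp, by simp⟩
  | succ k ih =>
    obtain ⟨l, h1, h2, h3, h4⟩ := ih (fun i hi => hq i (by omega)) (fun i hi => hz i (by omega))
    obtain ⟨l1, g1, g2⟩ := ext_coeffs (Al.cl s True) d q x z k (hq k (by omega)).1
      (hq k (by omega)).2 h1 h2 h4
    have hroot : Al s True (z k :: l1) := by
      refine .root (dpol d q x z k) g1.1 (mpol_monic _ _) ?_ (mpol_mem (g1.2.2 0 h2) g2)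
        (hz k (by omega))
      rw [dpol, mpol_natDegree]
      exact (hq k (by omega)).1
    refine ⟨_, hroot, List.mem_cons_of_mem _ (g1.2.2 0 h2), ?_, ?_⟩
    · have := g1.2.1
      rw [List.length_cons, add_mul k 1, one_mul]
      omega
    · intro i hi
      rcases Nat.lt_succ_iff_lt_or_eq.1 hi with h | h
      · exact mem1_of (g1.mem (h4 i h)) (fun b hb => List.mem_cons_of_mem _ hb)
      · subst h
        exact Or.inr List.mem_cons_self

end Pool.Agent.SLPQ
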