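import Pool.Agent.Lib_helper50.SLPD.Triang

/-!
# The six measures are polynomially equivalent
-/

namespace Pool.Agent.SLPQ

theorem triangular_le : PolyLe TriangularWitness AlgebraicWitness :=
  PolyLe.of 4500 6 (fun _ _ _ _ h hs => h.mono hs) fun _ _ _ h => triangular_algebraic h

theorem le_triangular : PolyLe OneQuery TriangularWitness :=
  PolyLe.of 20 1 (fun _ _ _ _ h hs => h.mono hs) fun _ _ _ h =>
    (onequery_triangular h).mono (by rw [pow_one])

theorem main_measures6 : ∀ M ∈ measures6, ∀ M' ∈ measures6, PolyLe M M' ∧
    (PolyLe RealWitness M → PolyLe RealWitness M') :=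
  main6_of triangular_le le_triangular

end Pool.Agent.SLPQ
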