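import Pool.Agent.Lib_helper50.SLPD.Sound
import Pool.Agent.Lib_helper53.SLPQ.Tri2

/-!
# Triangular systems: the sum of the squares of the errors
-/

namespace Pool.Agent.SLPQ

open Polynomial

/-- The coordinate `z_i`. -/
def zc (n i : ℕ) : List ℝ → ℝ := fun w => w.getD (n + i) 0

/-- The lower terms of an equation. -/
noncomputable def lsum (n : ℕ) (p : ℕ → SLP) (i m : ℕ) : List ℝ → ℝ :=
  ∑ j ∈ Finset.range m, SLP.val (p j) (1 :: crd (n + i)) * zc n i ^ j

theorem lsum_cost {n : ℕ} {p : ℕ → SLP} {s i : ℕ} (m : ℕ) (hp : ∀ j < m, (p j).length ≤ s)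
    {B : Set (List ℝ → ℝ)} (h0 : (0 : List ℝ → ℝ) ∈ B) (h1 : (1 : List ℝ → ℝ) ∈ B)
    (hc : ∀ f ∈ crd (n + i), f ∈ B) (hz : zc n i ∈ B) :
    CS True B (m * (s + 3)) ({zc n i ^ m} ∪ {lsum n p i m}) := by
  induction m with
  | zero =>
    refine (CS.zero ?_).le (Nat.zero_le _)
    rintro f (hf | hf)
    · rw [Set.mem_singleton_iff, pow_zero] at hf; rw [hf]; exact h1
    · rw [Set.mem_singleton_iff, lsum, Finset.range_zero, Finset.sum_empty] at hf; rw [hf]; exact h0
  | succ m ih =>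
    have c1 := ih fun j hj => hp j (by omega)
    have c2 : CS True (B ∪ ({zc n i ^ m} ∪ {lsum n p i m})) (p m).length
        {SLP.val (p m) (1 :: crd (n + i))} :=
      val_cost (p m) (Or.inl h0) (1 :: crd (n + i)) (by
        intro f hf
        rcases List.mem_cons.1 hf with rfl | h
        · exact Or.inl h1
        · exact Or.inl (hc f h))
    have c3 := c1.trans c2
    set V := SLP.val (p m) (1 :: crd (n + i)) with hV
    have m1 : CS True (B ∪ ({zc n i ^ m} ∪ {lsum n p i m} ∪ {V})) 0 {zc n i ^ m} :=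
      CS.mem (Or.inr (Or.inl (Or.inl rfl)))
    have m2 : CS True (B ∪ ({zc n i ^ m} ∪ {lsum n p i m} ∪ {V})) 0 {lsum n p i m} :=
      CS.mem (Or.inr (Or.inl (Or.inr rfl)))
    have m3 : CS True (B ∪ ({zc n i ^ m} ∪ {lsum n p i m} ∪ {V})) 0 {V} :=
      CS.mem (Or.inr (Or.inr rfl))
    have m4 : CS True (B ∪ ({zc n i ^ m} ∪ {lsum n p i m} ∪ {V})) 0 {zc n i} :=
      CS.mem (Or.inl hz)
    have c4 := c3.trans ((CS.mul m1 m4).union (CS.add m2 (CS.mul m3 m1)))
    refine (c4.le ?_).sub ?_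
    · have := hp m (by omega)
      rw [add_mul m 1, one_mul]
      omega
    · rintro f (hf | hf)
      · rw [Set.mem_singleton_iff, pow_succ] at hf
        exact Or.inr (Or.inl hf)
      · rw [Set.mem_singleton_iff, lsum, Finset.sum_range_succ] at hf
        exact Or.inr (Or.inr hf)

/-- The sum of the squares of the errors. -/
noncomputable def dpen (n : ℕ) (d : ℕ → ℕ) (q : ℕ → ℕ → SLP) : ℕ → List ℝ → ℝ
  | 0 => 0
  | k + 1 => dpen n d q k + (zc n k ^ d k + lsum n (q k) k (d k)) *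
      (zc n k ^ d k + lsum n (q k) k (d k))

theorem dpen_cost {n : ℕ} {d : ℕ → ℕ} {q : ℕ → ℕ → SLP} {s : ℕ} (k : ℕ)
    (hq : ∀ i < k, d i ≤ s ∧ ∀ j < d i, (q i j).length ≤ s) {B : Set (List ℝ → ℝ)}
    (h0 : (0 : List ℝ → ℝ) ∈ B) (h1 : (1 : List ℝ → ℝ) ∈ B) (hc : ∀ f ∈ crd (n + k), f ∈ B) :
    CS True B (k * (s * (s + 3) + 3)) {dpen n d q k} := by
  induction k with
  | zero => exact (CS.mem h0).le (Nat.zero_le _)
  | succ k ih =>
    have hc' : ∀ f ∈ crd (n + k), f ∈ B := by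
      intro f hf
      refine hc f ?_
      rw [crd, List.mem_map] at hf ⊢
      obtain ⟨i, hi, rfl⟩ := hf
      exact ⟨i, by rw [List.mem_range] at hi ⊢; omega, rfl⟩
    have hz : zc n k ∈ B := by
      refine hc _ ?_
      rw [crd, List.mem_map]
      exact ⟨n + k, by simp, rfl⟩
    have c1 := ih (fun i hi => hq i (by omega)) hc'
    have c2 := lsum_cost (n := n) (p := q k) (s := s) (i := k) (d k) (hq k (by omega)).2
      (B := B ∪ {dpen n d q k}) (Or.inl h0) (Or.inl h1) (fun f hf => Or.inl (hc' f hf))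
      (Or.inl hz)
    have c3 := c1.trans c2
    set A := zc n k ^ d k with hA
    set L := lsum n (q k) k (d k) with hL
    have c4 : CS True (B ∪ ({dpen n d q k} ∪ ({A} ∪ {L}))) 1 {A + L} :=
      CS.add (CS.mem (Or.inr (Or.inr (Or.inl rfl)))) (CS.mem (Or.inr (Or.inr (Or.inr rfl))))
    have c5 : CS True ((B ∪ ({dpen n d q k} ∪ ({A} ∪ {L}))) ∪ {A + L}) 2
        {dpen n d q k + (A + L) * (A + L)} :=
      CS.add (CS.mem (Or.inl (Or.inr (Or.inl rfl))))
        (CS.mul (CS.mem (Or.inr rfl)) (CS.mem (Or.inr rfl)))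
    have c6 := c3.trans (c4.trans c5)
    refine (c6.sub ?_).le ?_
    · intro f hf
      exact Or.inr (Or.inr hf)
    · have e1 : d k * (s + 3) ≤ s * (s + 3) := Nat.mul_le_mul_right _ (hq k (by omega)).1
      rw [add_mul k 1, one_mul]
      omega

theorem dpen_ev (x : List Bool) (z : ℕ → ℝ) (d : ℕ → ℕ) (q : ℕ → ℕ → SLP) {i k : ℕ} (h : i ≤ k) :
    dpen x.length d q i (x.map bit ++ (List.range k).map z) =
      ∑ j ∈ Finset.range i, ((dpol d q x z j).eval (z j)) ^ 2 := by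
  induction i with
  | zero => rfl
  | succ i ih =>
    rw [Finset.sum_range_succ, ← ih (by omega), dpen]
    have e1 : zc x.length i (x.map bit ++ (List.range k).map z) = z i := by
      rw [zc]
      simp only [List.getD_eq_getElem?_getD]
      rw [List.getElem?_append_right (by simp)]
      simp [show i < k by omega]
    have e2 : ∀ j, SLP.val (q i j) (1 :: crd (x.length + i))
        (x.map bit ++ (List.range k).map z) = (q i j).val (ini x z i) := by
      intro j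
      have := val_map (ev (x.map bit ++ (List.range k).map z)) (q i j) (1 :: crd (x.length + i))
      rw [crd_ini x z (show i ≤ k by omega)] at this
      rw [this]; rfl
    have e3 : (zc x.length i ^ d i + lsum x.length (q i) i (d i))
        (x.map bit ++ (List.range k).map z) = (dpol d q x z i).eval (z i) := by
      rw [dpol, mpol_eval, Pi.add_apply, Pi.pow_apply, e1, lsum, Finset.sum_apply]
      congr 1
      refine Finset.sum_congr rfl fun j _ => ?_
      rw [Pi.mul_apply, Pi.pow_apply, e1, e2]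
    rw [Pi.add_apply, Pi.mul_apply, e3]
    ring

/-- The value of the test. -/
noncomputable def tvl (M E : ℕ) (v P : ℝ) : ℝ :=
  2 ^ 2 ^ M * ((v + v) / (1 + v * v)) - 1 - 2 ^ 2 ^ M * 2 ^ 2 ^ E * P

theorem tvl_zero (M E k : ℕ) (v : ℝ) : tvl M E v 0 = tval M k v 0 := by
  rw [tvl, tval, mul_zero, mul_zero]

theorem tvl_neg {M E : ℕ} {v P : ℝ} (hP : 0 ≤ P) (h : 0 < tvl M E v P) :
    1 / (2 * 2 ^ 2 ^ M) < v ∧ P ≤ ((2:ℝ) ^ 2 ^ E)⁻¹ := by
  set Θ : ℝ := 2 ^ 2 ^ M with hΘ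
  have hΘ2 := two_le_dexp M
  rw [← hΘ] at hΘ2
  have hE0 : (0:ℝ) < 2 ^ 2 ^ E := by positivity
  rw [tvl, ← hΘ] at h
  have hd : 0 < 1 + v * v := by nlinarith [mul_self_nonneg v]
  have e1 : (v + v) / (1 + v * v) ≤ 1 := by
    rw [div_le_one hd]; nlinarith [sq_nonneg (v - 1)]
  have e3 : 0 ≤ Θ * 2 ^ 2 ^ E * P := by positivity
  have e4 : 1 < Θ * ((v + v) / (1 + v * v)) := by linarith
  have hv : 0 < v := by
    by_contra hcon
    push Not at hcon
    have : (v + v) / (1 + v * v) ≤ 0 := div_nonpos_of_nonpos_of_nonneg (by linarith) hd.le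
    nlinarith
  constructor
  · have e5 : (v + v) / (1 + v * v) ≤ v + v := div_le_self (by linarith) (by nlinarith)
    rw [div_lt_iff₀ (by positivity)]
    have : Θ * ((v + v) / (1 + v * v)) ≤ Θ * (v + v) := by gcongr
    linarith
  · have e5 : Θ * ((v + v) / (1 + v * v)) ≤ Θ * 1 := by gcongr
    have e6 : Θ * (2 ^ 2 ^ E * P) ≤ Θ * 1 := by linarith
    have e7 : 2 ^ 2 ^ E * P ≤ 1 := le_of_mul_le_mul_left e6 (by linarith)
    rw [← one_div, le_div_iff₀ hE0]
    linarith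

theorem erd_half (M a t : ℕ) : erd M a t * 2 ^ 2 ^ M ≤ 1 / (2 * 2 ^ 2 ^ M) := by
  have h : (2:ℝ) ^ 2 ^ M * (2 * 2 ^ 2 ^ M) ≤ 2 ^ 2 ^ (M + 2 + a * t) := by
    rw [show (2:ℝ) ^ 2 ^ M * (2 * 2 ^ 2 ^ M) = 2 ^ (2 ^ M + (1 + 2 ^ M)) by
      rw [pow_add, pow_add]; ring]
    refine pow_le_pow_right₀ (by norm_num) ?_
    have e1 : 2 ^ (M + 2) ≤ 2 ^ (M + 2 + a * t) := Nat.pow_le_pow_right (by norm_num) (by omega)
    have e2 : 2 ^ (M + 2) = 4 * 2 ^ M := by rw [pow_add]; ring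
    have e3 : 0 < 2 ^ M := by positivity
    omega
  rw [erd, ← one_div, div_mul_eq_mul_div, one_mul, div_le_div_iff₀ (by positivity)
    (by positivity), one_mul]
  exact h

end Pool.Agent.SLPQ
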