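import Pool.Agent.Lib_helper50.SLPD.Chain

/-!
# Triangular systems: approximate solutions are close to exact ones
-/

namespace Pool.Agent.SLPQ

open Polynomial

/-- The accuracy with `t` equations to go. -/
noncomputable def erd (M a t : ℕ) : ℝ := ((2:ℝ) ^ 2 ^ (M + 2 + a * t))⁻¹

theorem erd_pos (M a t : ℕ) : 0 < erd M a t := by rw [erd]; positivity

theorem erd_le_one (M a t : ℕ) : erd M a t ≤ 1 :=
  inv_le_one_of_one_le₀ (one_le_pow₀ (by norm_num))

theorem erd_mono (M a : ℕ) {t t' : ℕ} (h : t ≤ t') : erd M a t' ≤ erd M a t :=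
  inv_anti₀ (by positivity) (pow_le_pow_right₀ (by norm_num)
    (Nat.pow_le_pow_right (by norm_num) (by have := Nat.mul_le_mul_left a h; omega)))

theorem dexp_mono {a b : ℕ} (h : a ≤ b) : (2:ℝ) ^ 2 ^ a ≤ 2 ^ 2 ^ b :=
  pow_le_pow_right₀ (by norm_num) (Nat.pow_le_pow_right (by norm_num) h)

theorem erd_step {s M d : ℕ} (t : ℕ) (hM : 2 * s + 5 ≤ M) (hd : 1 ≤ d) (hds : d ≤ s) :
    erd M (s + 3) (t + 1) * 2 ^ 2 ^ M < (erd M (s + 3) t / (4 * d)) ^ d := by
  obtain ⟨X, hX⟩ : ∃ X, X = 2 ^ (M + 2 + (s + 3) * t) := ⟨_, rfl⟩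
  have hX1 : 2 ^ M ≤ X := by rw [hX]; exact Nat.pow_le_pow_right (by norm_num) (by omega)
  have hMM : M < 2 ^ M := Nat.lt_two_pow_self
  have hss : s < 2 ^ s := Nat.lt_two_pow_self
  have e1 : 2 ^ (M + 2 + (s + 3) * (t + 1)) = 2 ^ (s + 3) * X := by
    rw [hX, ← pow_add]; congr 1; ring
  have hexp : 2 ^ M + (X + (s + 2)) * s < 2 ^ (s + 3) * X := by
    have f1 : (X + (s + 2)) * s ≤ (2 * X) * 2 ^ s := Nat.mul_le_mul (by omega) hss.le
    have f2 : 2 ^ (s + 3) * X = 8 * (2 ^ s * X) := by rw [pow_add]; ring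
    have f3 : (2 * X) * 2 ^ s = 2 * (2 ^ s * X) := by ring
    have f4 : X ≤ 2 ^ s * X := Nat.le_mul_of_pos_left _ (by positivity)
    have f5 : 0 < X := by omega
    omega
  have hdR : (0:ℝ) < d := by exact_mod_cast hd
  have hbase : ((2:ℝ) ^ (X + (s + 2)))⁻¹ ≤ erd M (s + 3) t / (4 * d) := by
    have g1 : (4:ℝ) * d ≤ 2 ^ (s + 2) := by
      have : (d:ℝ) ≤ 2 ^ s := by exact_mod_cast hds.trans hss.le
      rw [pow_add]; linarith
    rw [erd, ← hX, div_eq_mul_inv, ← mul_inv, pow_add]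
    refine inv_anti₀ (by positivity) ?_
    gcongr
  have hpos : (0:ℝ) < ((2:ℝ) ^ (X + (s + 2)))⁻¹ := by positivity
  have hle1 : ((2:ℝ) ^ (X + (s + 2)))⁻¹ ≤ 1 :=
    inv_le_one_of_one_le₀ (one_le_pow₀ (by norm_num))
  calc erd M (s + 3) (t + 1) * 2 ^ 2 ^ M = (2:ℝ) ^ 2 ^ M / 2 ^ (2 ^ (s + 3) * X) := by
        rw [erd, e1, div_eq_mul_inv, mul_comm]
    _ < ((2:ℝ) ^ ((X + (s + 2)) * s))⁻¹ := by
        rw [div_lt_iff₀ (by positivity), ← div_eq_inv_mul, lt_div_iff₀ (by positivity), ← pow_add]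
        exact pow_lt_pow_right₀ (by norm_num) hexp
    _ = (((2:ℝ) ^ (X + (s + 2)))⁻¹) ^ s := by rw [inv_pow, ← pow_mul]
    _ ≤ (((2:ℝ) ^ (X + (s + 2)))⁻¹) ^ d := pow_le_pow_of_le_one hpos.le hle1 hds
    _ ≤ _ := pow_le_pow_left₀ hpos.le hbase d

theorem erd_small (M a t : ℕ) : erd M a t * 2 ^ 2 ^ M < (2 ^ 2 ^ M)⁻¹ := by
  have h : (2:ℝ) ^ 2 ^ M * 2 ^ 2 ^ M < 2 ^ 2 ^ (M + 2 + a * t) := by
    rw [← pow_add]
    refine pow_lt_pow_right₀ (by norm_num) ?_
    have e1 : 2 ^ (M + 2) ≤ 2 ^ (M + 2 + a * t) := Nat.pow_le_pow_right (by norm_num) (by omega)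
    have e2 : 2 ^ (M + 2) = 4 * 2 ^ M := by rw [pow_add]; ring
    have e3 : 0 < 2 ^ M := by positivity
    omega
  rw [erd, ← one_div, ← one_div, div_mul_eq_mul_div, one_mul, div_lt_div_iff₀ (by positivity)
    (by positivity), one_mul]
  exact h

theorem root_size {d : ℕ} {c : ℕ → ℝ} {A w : ℝ} (hA : 0 ≤ A) (hc : ∀ j < d, |c j| ≤ A)
    (hd : 1 ≤ d) (h : |(mpol d c).eval w| ≤ 1) : |w| ≤ 1 + d * A := by
  rcases le_or_gt |w| 1 with h1 | h1
  · have : 0 ≤ (d:ℝ) * A := by positivity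
    linarith
  · rw [mpol_eval] at h
    have h2 : |∑ j ∈ Finset.range d, c j * w ^ j| ≤ d * A * |w| ^ (d - 1) := by
      refine (Finset.abs_sum_le_sum_abs _ _).trans ?_
      calc ∑ j ∈ Finset.range d, |c j * w ^ j| ≤ ∑ _j ∈ Finset.range d, A * |w| ^ (d - 1) := by
            refine Finset.sum_le_sum fun j hj => ?_
            have hj := Finset.mem_range.1 hj
            rw [abs_mul, abs_pow]
            exact mul_le_mul (hc j hj) (pow_le_pow_right₀ h1.le (by omega)) (by positivity) hA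
        _ = d * A * |w| ^ (d - 1) := by simp; ring
    have h3 : |w| ^ d ≤ 1 + d * A * |w| ^ (d - 1) := by
      have : |w ^ d| ≤ |w ^ d + ∑ j ∈ Finset.range d, c j * w ^ j| +
          |∑ j ∈ Finset.range d, c j * w ^ j| := by
        have := abs_sub (w ^ d + ∑ j ∈ Finset.range d, c j * w ^ j)
          (∑ j ∈ Finset.range d, c j * w ^ j)
        rwa [add_sub_cancel_right] at this
      rw [abs_pow] at this
      linarith
    have h4 : |w| ^ d = |w| * |w| ^ (d - 1) := by
      rw [← pow_succ', show d - 1 + 1 = d by omega]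
    have h5 : 1 ≤ |w| ^ (d - 1) := one_le_pow₀ h1.le
    rw [h4] at h3
    have h6 : |w| * |w| ^ (d - 1) ≤ (1 + d * A) * |w| ^ (d - 1) := by linarith
    exact le_of_mul_le_mul_right h6 (by linarith)

theorem num_lip (s r : ℕ) : 1 + s * ((2:ℝ) ^ 2 ^ (r + s + 1) * (1 + s * 2 ^ 2 ^ r) ^ s) ≤
    2 ^ 2 ^ (r + 2 * s + 4) := by
  have hs : (s:ℝ) + 1 ≤ 2 ^ s := by exact_mod_cast (Nat.lt_two_pow_self : s < 2 ^ s)
  have hA : (1:ℝ) ≤ 2 ^ 2 ^ r := one_le_pow₀ (by norm_num)
  have h1 : 1 + (s:ℝ) * 2 ^ 2 ^ r ≤ 2 ^ (s + 2 ^ r) := by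
    rw [pow_add]
    calc 1 + (s:ℝ) * 2 ^ 2 ^ r ≤ (s + 1) * 2 ^ 2 ^ r := by linarith
      _ ≤ _ := by gcongr
  have h2 : (1 + (s:ℝ) * 2 ^ 2 ^ r) ^ s ≤ 2 ^ ((s + 2 ^ r) * s) := by
    rw [pow_mul]; gcongr
  have h3 : (s:ℝ) * ((2:ℝ) ^ 2 ^ (r + s + 1) * (1 + s * 2 ^ 2 ^ r) ^ s) ≤
      2 ^ (s + (2 ^ (r + s + 1) + (s + 2 ^ r) * s)) := by
    rw [pow_add 2 s, pow_add 2 (2 ^ (r + s + 1))]
    refine mul_le_mul (by linarith) (mul_le_mul_of_nonneg_left h2 (by positivity))
      (by positivity) (by positivity)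
  have h4 : (1:ℝ) ≤ 2 ^ (s + (2 ^ (r + s + 1) + (s + 2 ^ r) * s)) := one_le_pow₀ (by norm_num)
  calc _ ≤ (2:ℝ) ^ (s + (2 ^ (r + s + 1) + (s + 2 ^ r) * s) + 1) := by
        rw [pow_succ 2 (s + (2 ^ (r + s + 1) + (s + 2 ^ r) * s))]; linarith
    _ ≤ _ := by
        refine pow_le_pow_right₀ (by norm_num) ?_
        have hs' : s + 1 ≤ 2 ^ s := Nat.lt_two_pow_self
        have e1 : (s + 2 ^ r) * s ≤ (2 ^ s + 2 ^ r) * 2 ^ s := Nat.mul_le_mul (by omega) (by omega)
        have e2 : 2 ^ (r + 2 * s + 4) = 16 * (2 ^ r * (2 ^ s * 2 ^ s)) := by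
          rw [show r + 2 * s + 4 = 4 + (r + (s + s)) by ring, pow_add, pow_add 2 r, pow_add 2 s]
          norm_num
        have e3 : 2 ^ (r + s + 1) = 2 * (2 ^ r * 2 ^ s) := by
          rw [show r + s + 1 = 1 + (r + s) by ring, pow_add, pow_add 2 r]; norm_num
        have e4 : (2 ^ s + 2 ^ r) * 2 ^ s = 2 ^ s * 2 ^ s + 2 ^ r * 2 ^ s := by ring
        have e5 : 1 ≤ 2 ^ r := Nat.one_le_two_pow
        have e6 : 1 ≤ 2 ^ s := Nat.one_le_two_pow
        have e7 : 2 ^ r * 2 ^ s ≤ 2 ^ r * (2 ^ s * 2 ^ s) :=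
          Nat.mul_le_mul_left _ (Nat.le_mul_of_pos_left _ (by omega))
        have e8 : 2 ^ s * 2 ^ s ≤ 2 ^ r * (2 ^ s * 2 ^ s) := Nat.le_mul_of_pos_left _ (by omega)
        have e9 : 2 ^ s ≤ 2 ^ r * 2 ^ s := Nat.le_mul_of_pos_left _ (by omega)
        omega

/-- The length of the computations that occur. -/
def LN (k s : ℕ) : ℕ := 1 + k * (s * s + 1) + s * s + 9 * s + 4

/-- The exponent of the precision. -/
def PM (k s : ℕ) : ℕ := KB s (LN k s) + 2 * s + 6

theorem near_ini (x : List Bool) {S r : ℕ} {D : ℕ} {ε : ℝ} (hε : 0 ≤ ε) (hε1 : ε ≤ 1)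
    (hr : BR D S + 1 ≤ 2 ^ 2 ^ r) {z w : ℕ → ℝ} {i : ℕ} (hz : ∀ j < i, |z j| ≤ BR D S)
    (hd : ∀ j < i, |z j - w j| ≤ ε) : List.Forall₂ (RR ε r) (ini x z i) (ini x w i) := by
  refine ini_rel hε x fun j hj => ?_
  have h1 := hz j hj
  have h2 := hd j hj
  refine ⟨by linarith, ?_, ?_⟩
  · have h6 : |w j| ≤ |z j| + |z j - w j| := by
      have := abs_sub_abs_le_abs_sub (w j) (z j)
      rw [abs_sub_comm (w j) (z j)] at this
      linarith
    linarith
  · refine h2.trans ?_
    have h3 : (1:ℝ) ≤ 2 ^ 2 ^ (r + 1) := one_le_pow₀ (by norm_num)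
    nlinarith

theorem BR_succ_le (D S : ℕ) : BR D S + 1 ≤ 2 ^ 2 ^ (KB D S + 1) := by
  rw [dexp_succ]
  change BR D S + 1 ≤ BR D S ^ 2
  nlinarith [BR_ge D S]

theorem dsound (x : List Bool) (d : ℕ → ℕ) (q : ℕ → ℕ → SLP) {s k : ℕ} (w : ℕ → ℝ)
    (hq : ∀ i < k, d i ≤ s ∧ ∀ j < d i, (q i j).length ≤ s)
    (hw : ∀ i < k, |(dpol d q x w i).eval (w i)| ≤ erd (PM k s) (s + 3) (k + 1)) :
    ∃ z : ℕ → ℝ, (∀ i < k, (dpol d q x z i).eval (z i) = 0) ∧
      ∀ i < k, |z i - w i| ≤ erd (PM k s) (s + 3) 0 := by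
  obtain ⟨S, hS⟩ : ∃ S, S = LN k s := ⟨_, rfl⟩
  obtain ⟨M, hM⟩ : ∃ M, M = PM k s := ⟨_, rfl⟩
  have hM' : M = KB s S + 2 * s + 6 := by rw [hM, PM, hS]
  rw [← hM] at hw ⊢
  have key : ∀ j ≤ k, ∃ z : ℕ → ℝ, (∀ i < j, (dpol d q x z i).eval (z i) = 0) ∧
      ∀ i < j, |z i - w i| ≤ erd M (s + 3) (k - j) := by
    intro j
    induction j with
    | zero => intro _; exact ⟨fun _ => 0, by simp, by simp⟩
    | succ j ih =>
      intro hj
      obtain ⟨z, h1, h2⟩ := ih (by omega)
      obtain ⟨t, ht⟩ : ∃ t, t = k - (j + 1) := ⟨_, rfl⟩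
      rw [show k - j = t + 1 by omega] at h2
      obtain ⟨l, g1, g2, g3, g4⟩ := dchain x d q z j (fun i hi => hq i (by omega)) h1
      obtain ⟨l1, f1, f2⟩ := ext_coeffs (Al.cl s True) d q x z j (hq j (by omega)).1
        (hq j (by omega)).2 g1 g2 g4
      have hlen : j * (s * s + 1) ≤ k * (s * s + 1) := Nat.mul_le_mul_right _ (by omega)
      have hSv : S = 1 + k * (s * s + 1) + s * s + 9 * s + 4 := by rw [hS, LN]
      have hl1 : l1.length ≤ 1 + k * (s * s + 1) + s * s := by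
        have := f1.2.1; omega
      have hBR := BR_ge s S
      have hdj := (hq j (by omega)).1
      -- the equation has positive degree
      have hd1 : 1 ≤ d j := by
        by_contra hcon
        have h0 : d j = 0 := by omega
        have h3 := hw j (by omega)
        rw [dpol, mpol_eval, h0] at h3
        simp only [pow_zero, Finset.range_zero, Finset.sum_empty, add_zero, abs_one] at h3
        have h4 : erd M (s + 3) (k + 1) < 1 := by
          rw [erd]
          refine inv_lt_one_of_one_lt₀ ?_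
          have := two_le_dexp (M + 2 + (s + 3) * (k + 1))
          linarith
        linarith
      have hdR : (1:ℝ) ≤ d j := by exact_mod_cast hd1
      -- coefficients
      have hcz : ∀ m < d j, |(q j m).val (ini x z j)| ≤ BR s S := fun m hm =>
        ((f1.1.bds (f2 m hm)).1).trans (BR_mono s (by omega))
      have hrel := near_ini x (erd_pos M (s + 3) (t + 1)).le (erd_le_one _ _ _)
        (BR_succ_le s S) (fun i hi => ((g1.bds (g4 i hi)).1).trans (BR_mono s (by omega))) h2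
      have hlip : ∀ m < d j, |(q j m).val (ini x z j) - (q j m).val (ini x w j)| ≤
          erd M (s + 3) (t + 1) * 2 ^ 2 ^ (KB s S + 1 + s + 1) := by
        intro m hm
        refine (val_lip (erd_pos M (s + 3) (t + 1)).le (q j m) hrel).trans ?_
        refine mul_le_mul_of_nonneg_left (dexp_mono ?_) (erd_pos _ _ _).le
        have := (hq j (by omega)).2 m hm
        omega
      have hsm : erd M (s + 3) (t + 1) * 2 ^ 2 ^ (KB s S + 1 + s + 1) ≤ 1 := by
        have e1 := erd_small M (s + 3) (t + 1)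
        have e2 : (2:ℝ) ^ 2 ^ (KB s S + 1 + s + 1) ≤ 2 ^ 2 ^ M := dexp_mono (by omega)
        have e3 : ((2:ℝ) ^ 2 ^ M)⁻¹ ≤ 1 := inv_le_one_of_one_le₀ (one_le_pow₀ (by norm_num))
        have e4 := mul_le_mul_of_nonneg_left e2 (erd_pos M (s + 3) (t + 1)).le
        linarith
      have hcw : ∀ m < d j, |(q j m).val (ini x w j)| ≤ 2 ^ 2 ^ (KB s S + 1) := by
        intro m hm
        have e1 := hcz m hm
        have e2 := hlip m hm
        have e3 : |(q j m).val (ini x w j)| ≤ |(q j m).val (ini x z j)| +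
            |(q j m).val (ini x z j) - (q j m).val (ini x w j)| := by
          have := abs_sub_abs_le_abs_sub ((q j m).val (ini x w j)) ((q j m).val (ini x z j))
          rw [abs_sub_comm] at this
          linarith
        have e4 := BR_succ_le s S
        linarith
      have hwj : |w j| ≤ 1 + s * 2 ^ 2 ^ (KB s S + 1) := by
        have e1 := root_size (by positivity) hcw hd1 ((hw j (by omega)).trans (erd_le_one _ _ _))
        have e2 : (d j:ℝ) ≤ s := by exact_mod_cast hdj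
        have e3 : (d j:ℝ) * 2 ^ 2 ^ (KB s S + 1) ≤ s * 2 ^ 2 ^ (KB s S + 1) := by gcongr
        linarith
      set Wd : ℝ := 1 + s * 2 ^ 2 ^ (KB s S + 1) with hWd
      have hW1 : 1 ≤ Wd := by
        have : (0:ℝ) ≤ s * 2 ^ 2 ^ (KB s S + 1) := by positivity
        linarith
      -- the value of the exact polynomial
      have hdiff : |(dpol d q x z j).eval (w j) - (dpol d q x w j).eval (w j)| ≤
          erd M (s + 3) (t + 1) * (s * (2 ^ 2 ^ (KB s S + 1 + s + 1) * Wd ^ s)) := by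
        rw [dpol, dpol, mpol_eval, mpol_eval, add_sub_add_left_eq_sub, ← Finset.sum_sub_distrib]
        refine (Finset.abs_sum_le_sum_abs _ _).trans ?_
        calc ∑ m ∈ Finset.range (d j), |(q j m).val (ini x z j) * w j ^ m -
              (q j m).val (ini x w j) * w j ^ m|
            ≤ ∑ _m ∈ Finset.range (d j),
                erd M (s + 3) (t + 1) * 2 ^ 2 ^ (KB s S + 1 + s + 1) * Wd ^ s := by
              refine Finset.sum_le_sum fun m hm => ?_
              have hm := Finset.mem_range.1 hm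
              rw [← sub_mul, abs_mul, abs_pow]
              refine mul_le_mul (hlip m hm) ?_ (by positivity)
                (mul_nonneg (erd_pos _ _ _).le (by positivity))
              calc |w j| ^ m ≤ Wd ^ m := pow_le_pow_left₀ (abs_nonneg _) hwj m
                _ ≤ Wd ^ s := pow_le_pow_right₀ hW1 (by omega)
          _ = d j * (erd M (s + 3) (t + 1) * 2 ^ 2 ^ (KB s S + 1 + s + 1) * Wd ^ s) := by simp
          _ ≤ s * (erd M (s + 3) (t + 1) * 2 ^ 2 ^ (KB s S + 1 + s + 1) * Wd ^ s) := by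
              have := (erd_pos M (s + 3) (t + 1)).le
              gcongr
          _ = _ := by ring
      have hval : |(dpol d q x z j).eval (w j)| ≤ erd M (s + 3) (t + 1) * 2 ^ 2 ^ M := by
        have e1 : |(dpol d q x z j).eval (w j)| ≤
            |(dpol d q x z j).eval (w j) - (dpol d q x w j).eval (w j)| +
            |(dpol d q x w j).eval (w j)| := by
          have := abs_sub_abs_le_abs_sub ((dpol d q x z j).eval (w j))
            ((dpol d q x w j).eval (w j))
          linarith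
        have e2 := hw j (by omega)
        have e3 : erd M (s + 3) (k + 1) ≤ erd M (s + 3) (t + 1) := erd_mono _ _ (by omega)
        have e4 := num_lip s (KB s S + 1)
        have e5 : (2:ℝ) ^ 2 ^ (KB s S + 1 + 2 * s + 4) ≤ 2 ^ 2 ^ M := dexp_mono (by omega)
        have e6 := mul_le_mul_of_nonneg_left (e4.trans e5) (erd_pos M (s + 3) (t + 1)).le
        rw [← hWd] at e6
        linarith
      -- the new coordinate
      have hnd : (dpol d q x z j).natDegree = d j := by rw [dpol, mpol_natDegree]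
      have hmon : (dpol d q x z j).Monic := mpol_monic _ _
      have hBM : BR s S ≤ 2 ^ 2 ^ M := dexp_mono (by omega)
      obtain ⟨y, hy1, hy2⟩ := near_root hmon (by rw [hnd]; exact hd1) (B := BR s S)
        (r := erd M (s + 3) t) (w := w j) (erd_pos _ _ _) (by
          intro u _ hu hne
          obtain ⟨l2, e1, e2⟩ := ext_crit f1.1 (f1.2.2 0 g2) (dpol d q x z j) hmon
            (by rw [hnd]; exact hdj) (by rw [hnd]; exact hd1)
            (mpol_mem (f1.2.2 0 g2) f2) hu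
          have e3 := (e1.1.bds e2).2 hne
          rw [one_div]
          refine (inv_anti₀ (by linarith [BR_ge s l2.length]) (BR_mono s ?_)).trans e3
          have := e1.2.1
          omega) (by
          rw [one_div]
          refine lt_of_le_of_lt hval ((erd_small M (s + 3) (t + 1)).trans_le ?_)
          exact inv_anti₀ (by linarith) hBM) (by
          rw [hnd]
          exact lt_of_le_of_lt hval (erd_step t (by omega) hd1 hdj))
      rw [← ht]
      refine ⟨Function.update z j y, ?_, ?_⟩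
      · intro i hi
        have hc : dpol d q x (Function.update z j y) i = dpol d q x z i :=
          dpol_congr d q x fun m hm => by rw [Function.update_of_ne (by omega)]
        rw [hc]
        rcases Nat.lt_succ_iff_lt_or_eq.1 hi with h | h
        · rw [Function.update_of_ne (by omega)]
          exact h1 i h
        · subst h
          rw [Function.update_self]
          exact hy1
      · intro i hi
        rcases Nat.lt_succ_iff_lt_or_eq.1 hi with h | h
        · rw [Function.update_of_ne (by omega)]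
          exact (h2 i h).trans (erd_mono M _ (by omega))
        · subst h
          rw [Function.update_self]
          exact hy2
  obtain ⟨z, h1, h2⟩ := key k le_rfl
  exact ⟨z, h1, by simpa using h2⟩

end Pool.Agent.SLPQ
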