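import Pool.Agent.Lib_helper50.SLPD.Pen

/-!
# Triangular systems are one inequality
-/

namespace Pool.Agent.SLPQ

open Polynomial

/-- A triangular system is one inequality whose solutions can be taken computed. -/
theorem dtest {n k s : ℕ} (d : ℕ → ℕ) (q : ℕ → ℕ → SLP)
    (hq : ∀ i < k, d i ≤ s ∧ ∀ j < d i, (q i j).length ≤ s) (F : SLP)
    (hF : F.length ≤ s) : ∃ G : SLP, G.Valid (1 + (n + k)) ∧
      G.length ≤ 4 * (k * (s * (s + 3) + 3) + 2 * PM k s + (s + 3) * (k + 1) + s + 20) ∧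
      ∀ x : List Bool, x.length = n →
        (∀ z : ℕ → ℝ, (∀ i < k, (dpol d q x z i).eval (z i) = 0) → 0 < F.val (ini x z k) →
          0 < G.val (ini x z k)) ∧
        ∀ w : ℕ → ℝ, 0 < G.val (ini x w k) →
          ∃ z : ℕ → ℝ, (∀ i < k, (dpol d q x z i).eval (z i) = 0) ∧ 0 < F.val (ini x z k) := by
  obtain ⟨S, hS⟩ : ∃ S, S = LN k s := ⟨_, rfl⟩
  have hSv : S = 1 + k * (s * s + 1) + s * s + 9 * s + 4 := by rw [hS, LN]
  obtain ⟨M, hM⟩ : ∃ M, M = PM k s := ⟨_, rfl⟩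
  have hM' : M = KB s S + 2 * s + 6 := by rw [hM, PM, hS]
  obtain ⟨Ex, hEx⟩ : ∃ Ex, Ex = M + 3 + (s + 3) * (k + 1) := ⟨_, rfl⟩
  set b : List (List ℝ → ℝ) := 1 :: crd (n + k) with hb
  set B : Set (List ℝ → ℝ) := {f | f ∈ b} ∪ {0} with hB
  have h1 : (1 : List ℝ → ℝ) ∈ B := Or.inl (by simp [hb])
  have h0 : (0 : List ℝ → ℝ) ∈ B := Or.inr rfl
  have hcr : ∀ f ∈ crd (n + k), f ∈ B := fun f hf => Or.inl (by
    rw [hb]; exact List.mem_cons_of_mem _ hf)
  have k1 := dpen_cost (n := n) k hq h0 h1 hcr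
  have k2 := k1.trans ((val_cost (d := True) F h0 (1 :: crd (n + k)) (by
    intro f hf
    rcases List.mem_cons.1 hf with rfl | h
    · exact h1
    · exact hcr f h)).mono Set.subset_union_left)
  have k3 := k2.trans ((dexp_cost (X := List ℝ) (d := True) h1 M).mono Set.subset_union_left)
  have k4 := k3.trans ((dexp_cost (X := List ℝ) (d := True) h1 Ex).mono
    Set.subset_union_left)
  set P := dpen n d q k with hP
  set V := SLP.val F (1 :: crd (n + k)) with hV
  set T : List ℝ → ℝ := 2 ^ 2 ^ M with hT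
  set E : List ℝ → ℝ := 2 ^ 2 ^ Ex with hE
  have m1 : CS True (B ∪ ({P} ∪ {V} ∪ {T} ∪ {E})) 0 {(1 : List ℝ → ℝ)} := CS.mem (Or.inl h1)
  have mP : CS True (B ∪ ({P} ∪ {V} ∪ {T} ∪ {E})) 0 {P} :=
    CS.mem (Or.inr (Or.inl (Or.inl (Or.inl rfl))))
  have mV : CS True (B ∪ ({P} ∪ {V} ∪ {T} ∪ {E})) 0 {V} :=
    CS.mem (Or.inr (Or.inl (Or.inl (Or.inr rfl))))
  have mT : CS True (B ∪ ({P} ∪ {V} ∪ {T} ∪ {E})) 0 {T} :=
    CS.mem (Or.inr (Or.inl (Or.inr rfl)))
  have mE : CS True (B ∪ ({P} ∪ {V} ∪ {T} ∪ {E})) 0 {E} :=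
    CS.mem (Or.inr (Or.inr rfl))
  have m2 : CS True (B ∪ ({P} ∪ {V} ∪ {T} ∪ {E})) _ {fun w => (V + V) w / (1 + V * V) w} :=
    CS.div2 (CS.add mV mV) (CS.add m1 (CS.mul mV mV)) (fun w => by
      simp only [Pi.add_apply, Pi.one_apply, Pi.mul_apply]
      nlinarith [mul_self_nonneg (V w)])
  have m3 := CS.sb (CS.sb (CS.mul mT m2) m1) (CS.mul (CS.mul mT mE) mP)
  have k5 := k4.trans m3
  obtain ⟨G, hGv, hGlen, hG⟩ := to_prog b (by simp [hb]) (k5.sub Set.subset_union_right)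
  have hblen : b.length = 1 + (n + k) := by rw [hb]; simp [crd]; omega
  have hval : ∀ x : List Bool, x.length = n → ∀ z : ℕ → ℝ, ∃ D : ℝ, 1 ≤ D ∧
      G.val (ini x z k) = tvl M Ex (F.val (ini x z k))
        (∑ j ∈ Finset.range k, ((dpol d q x z j).eval (z j)) ^ 2) * D := by
    intro x hx z
    obtain ⟨D, hD, hv⟩ := hG (x.map bit ++ (List.range k).map z)
    refine ⟨D, hD, ?_⟩
    have hbw : (b.map fun g => g (x.map bit ++ (List.range k).map z)) = ini x z k := by
      have := crd_ini x z (le_refl k)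
      rw [hx] at this
      exact this
    rw [hbw] at hv
    rw [hv]
    have e1 : P (x.map bit ++ (List.range k).map z) =
        ∑ j ∈ Finset.range k, ((dpol d q x z j).eval (z j)) ^ 2 := by
      have := dpen_ev x z d q (le_refl k)
      rw [hx] at this
      exact this
    have e2 : V (x.map bit ++ (List.range k).map z) = F.val (ini x z k) := by
      have := val_map (ev (x.map bit ++ (List.range k).map z)) F (1 :: crd (x.length + k))
      rw [crd_ini x z (le_refl k)] at this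
      rw [this, hx]; rfl
    rw [← e1, ← e2, tvl]
    simp only [Pi.add_apply, Pi.one_apply, Pi.sub_apply, Pi.mul_apply, hT, hE, Pi.pow_apply]
    rfl
  have hBR := BR_ge s S
  have hchain : ∀ x : List Bool, ∀ z : ℕ → ℝ, (∀ i < k, (dpol d q x z i).eval (z i) = 0) →
      (∀ i < k, |z i| ≤ BR s S) ∧ |F.val (ini x z k)| ≤ BR s S ∧
      (F.val (ini x z k) ≠ 0 → (BR s S)⁻¹ ≤ |F.val (ini x z k)|) := by
    intro x z hz
    obtain ⟨l, g1, g2, g3, g4⟩ := dchain x d q z k hq hz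
    obtain ⟨l1, f1, f2⟩ := ext_val (Al.cl s True) F g1 g2 (ini x z k) (ini_mem1 g2 x z k g4)
    have hl : l.length ≤ S := by omega
    have hl1 : l1.length ≤ S := by have := f1.2.1; omega
    refine ⟨fun i hi => (g1.bds (g4 i hi)).1.trans (BR_mono s hl),
      (f1.1.bds f2).1.trans (BR_mono s hl1), fun hne => ?_⟩
    exact (inv_anti₀ (by linarith [BR_ge s l1.length]) (BR_mono s hl1)).trans
      ((f1.1.bds f2).2 hne)
  refine ⟨G, hblen ▸ hGv, ?_, ?_⟩
  · refine hGlen.trans ?_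
    rw [← hM, hEx]
    omega
  · intro x hx
    refine ⟨?_, ?_⟩
    · intro z hz hpos
      obtain ⟨D, hD, hv⟩ := hval x hx z
      have hsum : ∑ j ∈ Finset.range k, ((dpol d q x z j).eval (z j)) ^ 2 = 0 := by
        refine Finset.sum_eq_zero fun j hj => ?_
        rw [hz j (Finset.mem_range.1 hj)]
        ring
      rw [hv, hsum, tvl_zero M Ex 0]
      refine mul_pos ?_ (by linarith)
      obtain ⟨-, c2, c3⟩ := hchain x z hz
      have c3 := c3 hpos.ne'
      rw [abs_of_pos hpos] at c2 c3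
      refine tval_pos (B := BR s S) (by linarith) ?_ (by linarith) c3 c2
      rw [BR, ← dexp_succ]
      exact dexp_mono (by omega)
    · intro w hw
      obtain ⟨D, hD, hv⟩ := hval x hx w
      rw [hv] at hw
      have hD0 : 0 < D := by linarith
      have hpos := (mul_pos_iff_of_pos_right hD0).1 hw
      obtain ⟨t1, t2⟩ := tvl_neg (Finset.sum_nonneg fun j _ => sq_nonneg _) hpos
      have hsq : ((2:ℝ) ^ 2 ^ Ex)⁻¹ = erd M (s + 3) (k + 1) ^ 2 := by
        rw [erd, inv_pow, ← dexp_succ, hEx]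
        congr 3
        ring
      have herr : ∀ i < k, |(dpol d q x w i).eval (w i)| ≤ erd M (s + 3) (k + 1) := by
        intro i hi
        refine (pow_le_pow_iff_left₀ (abs_nonneg _) (erd_pos _ _ _).le two_ne_zero).1 ?_
        rw [sq_abs, ← hsq]
        exact (Finset.single_le_sum (f := fun j => ((dpol d q x w j).eval (w j)) ^ 2)
          (fun j _ => sq_nonneg _) (Finset.mem_range.2 hi)).trans t2
      rw [hM] at herr
      obtain ⟨z, z1, z2⟩ := dsound x d q w hq herr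
      rw [← hM] at z2
      refine ⟨z, z1, ?_⟩
      obtain ⟨c1, -, -⟩ := hchain x z z1
      have hrel := near_ini x (erd_pos M (s + 3) 0).le (erd_le_one _ _ _)
        (BR_succ_le s S) c1 z2
      have hlip := val_lip (erd_pos M (s + 3) 0).le F hrel
      have hexp : (2:ℝ) ^ 2 ^ (KB s S + 1 + F.length + 1) ≤ 2 ^ 2 ^ M := dexp_mono (by omega)
      have hl2 : |F.val (ini x z k) - F.val (ini x w k)| ≤ 1 / (2 * 2 ^ 2 ^ M) :=
        (hlip.trans (mul_le_mul_of_nonneg_left hexp (erd_pos _ _ _).le)).trans (erd_half _ _ _)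
      rw [abs_le] at hl2
      linarith [hl2.1]

end Pool.Agent.SLPQ
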