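import Pool.Agent.Lib_helper50.SLPD.Test
import Pool.Agent.Lib_helper53.SLPD.Meas

/-!
# Triangular systems: comparison with the other measures
-/

namespace Pool.Agent.SLPQ

open Polynomial

/-! ### numbers -/

theorem LN_le {k s T : ℕ} (hk : k ≤ T) (hs : s ≤ T) (hT : 1 ≤ T) : LN k s ≤ 17 * T ^ 3 := by
  have e1 : k * (s * s + 1) ≤ T * (T * T + 1) := by gcongr
  have e2 : T * (T * T + 1) = T ^ 3 + T := by ring
  have e3 : s * s ≤ T ^ 2 := by rw [sq]; gcongr
  have e4 : T ^ 2 ≤ T ^ 3 := Nat.pow_le_pow_right hT (by norm_num)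
  have e5 : T ≤ T ^ 3 := Nat.le_self_pow (by norm_num) T
  rw [LN]
  omega

theorem PM_le {k s T : ℕ} (hk : k ≤ T) (hs : s ≤ T) (hT : 1 ≤ T) : PM k s ≤ 526 * T ^ 6 := by
  have e1 := LN_le hk hs hT
  have e2 : s * (s + 4) + 5 ≤ 10 * T ^ 2 := by
    have f1 : s * (s + 4) ≤ T * (T + 4) := by gcongr
    have f2 : T * (T + 4) = T ^ 2 + 4 * T := by ring
    have f3 : T ≤ T ^ 2 := Nat.le_self_pow (by norm_num) T
    omega
  obtain ⟨N, hN⟩ : ∃ N, N = 1 + LN k s * (s * (s + 4) + 5) := ⟨_, rfl⟩
  have e4 : N ≤ 171 * T ^ 5 := by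
    have f1 : LN k s * (s * (s + 4) + 5) ≤ 17 * T ^ 3 * (10 * T ^ 2) := Nat.mul_le_mul e1 e2
    have f2 : 17 * T ^ 3 * (10 * T ^ 2) = 170 * T ^ 5 := by ring
    have f3 : 1 ≤ T ^ 5 := Nat.one_le_pow _ _ hT
    omega
  have e5 : s * N ≤ T * (171 * T ^ 5) := Nat.mul_le_mul hs e4
  have e6 : T * (171 * T ^ 5) = 171 * T ^ 6 := by ring
  have e7 : T ^ 5 ≤ T ^ 6 := Nat.pow_le_pow_right hT (by norm_num)
  have e8 : T ≤ T ^ 6 := Nat.le_self_pow (by norm_num) T
  rw [PM, KB, KS, ← hN]
  omega

theorem len_le {k s T : ℕ} (hk : k ≤ T) (hs : s ≤ T) (hT : 1 ≤ T) :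
    4 * (k * (s * (s + 3) + 3) + 2 * PM k s + (s + 3) * (k + 1) + s + 20) ≤ 4500 * T ^ 6 := by
  have e1 := PM_le hk hs hT
  have e2 : k * (s * (s + 3) + 3) ≤ T * (T * (T + 3) + 3) := by gcongr
  have e3 : T * (T * (T + 3) + 3) = T ^ 3 + 3 * T ^ 2 + 3 * T := by ring
  have e4 : (s + 3) * (k + 1) ≤ (T + 3) * (T + 1) := by gcongr
  have e5 : (T + 3) * (T + 1) = T ^ 2 + 4 * T + 3 := by ring
  have e6 : T ^ 3 ≤ T ^ 6 := Nat.pow_le_pow_right hT (by norm_num)
  have e7 : T ^ 2 ≤ T ^ 6 := Nat.pow_le_pow_right hT (by norm_num)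
  have e8 : T ≤ T ^ 6 := Nat.le_self_pow (by norm_num) T
  omega

/-! ### lists and sequences -/

theorem list_range_getD {k : ℕ} {z : List ℝ} (h : z.length = k) :
    (List.range k).map (fun i => z.getD i 0) = z := by
  refine List.ext_getElem (by simp [h]) ?_
  intro i h1 h2
  simp only [List.getElem_map, List.getElem_range]
  rw [List.getD_eq_getElem?_getD, List.getElem?_eq_getElem h2]
  rfl

theorem range_getD {k i : ℕ} (w : ℕ → ℝ) (hi : i < k) : ((List.range k).map w).getD i 0 = w i := by
  rw [List.getD_eq_getElem?_getD, List.getElem?_eq_getElem (by simpa using hi)]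
  simp

theorem ini_getD (x : List Bool) {k i : ℕ} {z : List ℝ} (h : z.length = k) (hi : i ≤ k) :
    ini x (fun i => z.getD i 0) i = (1 : ℝ) :: (x.map bit ++ z.take i) := by
  rw [ini]
  congr 2
  rw [← list_range_getD h, ← List.map_take, List.take_range, min_eq_left hi,
    list_range_getD h]

theorem ini_take (x : List Bool) (w : ℕ → ℝ) {k i : ℕ} (hi : i ≤ k) :
    (1 : ℝ) :: (x.map bit ++ ((List.range k).map w).take i) = ini x w i := by
  rw [ini, ← List.map_take, List.take_range, min_eq_left hi]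

theorem dpol_getD (x : List Bool) (d : ℕ → ℕ) (q : ℕ → ℕ → SLP) {k i : ℕ} {z : List ℝ}
    (h : z.length = k) (hi : i ≤ k) (t : ℝ) :
    (dpol d q x (fun i => z.getD i 0) i).eval t = t ^ d i + ∑ j ∈ Finset.range (d i),
      (q i j).val ((1 : ℝ) :: (x.map bit ++ z.take i)) * t ^ j := by
  rw [dpol, mpol_eval, ini_getD x h hi]

/-- **Triangular systems have computed witnesses.** -/
theorem triangular_algebraic {n s : ℕ} {f : List Bool → Prop} (h : TriangularWitness n f s) :
    AlgebraicWitness n f (4500 * (n + s + 1) ^ 6) := by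
  obtain ⟨k, hk, d, q, hq, F, hF1, hF2, hF3⟩ := h
  have hq' : ∀ i < k, d i ≤ s ∧ ∀ j < d i, (q i j).length ≤ s := fun i hi =>
    ⟨(hq i hi).1, fun j hj => ((hq i hi).2 j hj).1⟩
  obtain ⟨G, hG1, hG2, hG3⟩ := dtest (n := n) d q hq' F hF1
  obtain ⟨T, hT⟩ : ∃ T, T = n + s + 1 := ⟨_, rfl⟩
  rw [← hT]
  have hTT : T ≤ T ^ 6 := Nat.le_self_pow (by norm_num) T
  have hT3 : T ^ 3 ≤ T ^ 6 := Nat.pow_le_pow_right (by omega) (by norm_num)
  refine ⟨k, by omega, G, hG2.trans (len_le (by omega) (by omega) (by omega)), hG1,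
    fun x hx => ⟨fun hfx z hz => ?_, fun hfx => ?_⟩⟩
  · by_contra hcon
    push Not at hcon
    obtain ⟨w, w1, w2⟩ := (hG3 x hx).2 (fun i => z.getD i 0) (by
      rw [ini, list_range_getD hz]
      exact hcon)
    refine hfx ((hF3 x hx).2 ⟨(List.range k).map w, by simp, ?_, w2⟩)
    intro i hi
    rw [range_getD w hi, ini_take x w hi.le]
    have e1 := w1 i hi
    rwa [dpol, mpol_eval] at e1
  · obtain ⟨z, z0, z1, z2⟩ := (hF3 x hx).1 hfx
    have z1' : ∀ i < k, (dpol d q x (fun i => z.getD i 0) i).eval (z.getD i 0) = 0 := by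
      intro i hi
      rw [dpol_getD x d q z0 hi.le]
      exact z1 i hi
    have hini : ini x (fun i => z.getD i 0) k = (1 : ℝ) :: (x.map bit ++ z) := by
      rw [ini_getD x z0 le_rfl, ← z0, List.take_length]
    have hG4 := (hG3 x hx).1 (fun i => z.getD i 0) z1' (by rw [hini]; exact z2)
    rw [hini] at hG4
    refine ⟨z, z0, ?_, hG4⟩
    obtain ⟨l, g1, g2, g3, g4⟩ := dchain x d q (fun i => z.getD i 0) k hq' z1'
    refine ⟨l, g1.mono (by omega), ?_, ?_⟩
    · have e1 := LN_le (k := k) (s := s) (T := T) (by omega) (by omega) (by omega)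
      rw [LN] at e1
      omega
    · intro a ha
      rw [← list_range_getD z0] at ha
      obtain ⟨i, hi, rfl⟩ := List.mem_map.1 ha
      exact g4 i (List.mem_range.1 hi)

/-! ### bits -/

theorem val_single (o : Op) (u : List ℝ) :
    SLP.val [(o, 0, 0)] ((1 : ℝ) :: u) = o.app 1 1 := by
  have h : SLP.run [(o, 0, 0)] ((1 : ℝ) :: u) = ((1 : ℝ) :: u) ++ [o.app 1 1] := by
    simp [SLP.run]
  have h2 : ∀ (w : List ℝ) (f : ℝ), (w ++ [f]).getLastD 0 = f := by intro w f; simp
  rw [SLP.val, h]
  exact h2 _ _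

/-- The programs for `z² + z = 0`. -/
def bitq (_ j : ℕ) : SLP := if j = 0 then [(Op.sub, 0, 0)] else [(Op.mul, 0, 0)]

theorem bitq_length (i j : ℕ) : (bitq i j).length = 1 := by
  rw [bitq]; split_ifs <;> rfl

theorem bitq_valid (i j N : ℕ) (hN : 0 < N) : (bitq i j).Valid N := by
  rw [bitq]; split_ifs <;> exact ⟨hN, hN, trivial⟩

theorem bitq_eq (i : ℕ) (u : List ℝ) (t : ℝ) :
    t ^ 2 + ∑ j ∈ Finset.range 2, (bitq i j).val ((1 : ℝ) :: u) * t ^ j = t * (t + 1) := by
  rw [Finset.sum_range_succ, Finset.sum_range_one]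
  simp only [bitq, if_true, one_ne_zero, if_false, val_single, Op.app]
  ring

/-- The function `1 + z_i`. -/
noncomputable def shf (n i : ℕ) : List ℝ → ℝ := 1 + zc n i

theorem shf_cost {n : ℕ} (m : ℕ) {B : Set (List ℝ → ℝ)} (h1 : (1 : List ℝ → ℝ) ∈ B)
    (hc : ∀ f ∈ crd (n + m), f ∈ B) :
    CS True B m {f | f ∈ (List.range m).map (shf n)} := by
  induction m with
  | zero => exact CS.zero (by intro f hf; simp at hf)
  | succ m ih =>
    have hz : zc n m ∈ B := by
      refine hc _ ?_
      rw [crd, List.mem_map]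
      exact ⟨n + m, by simp, rfl⟩
    have c1 := ih (by
      intro f hf
      refine hc f ?_
      rw [crd, List.mem_map] at hf ⊢
      obtain ⟨i, hi, rfl⟩ := hf
      exact ⟨i, by rw [List.mem_range] at hi ⊢; omega, rfl⟩)
    have c2 : CS True B 1 {shf n m} := CS.add (CS.mem h1) (CS.mem hz)
    refine (c1.union c2).sub ?_
    intro f hf
    have hf' : f ∈ (List.range (m + 1)).map (shf n) := hf
    rw [List.range_succ, List.map_append, List.mem_append] at hf'
    rcases hf' with h | h
    · exact Or.inl h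
    · exact Or.inr (by simpa using h)

theorem shf_ini (x : List Bool) (z : ℕ → ℝ) (m : ℕ) :
    ((1 : List ℝ → ℝ) :: (crd x.length ++ (List.range m).map (shf x.length))).map
      (ev (x.map bit ++ (List.range m).map z)) =
      (1 : ℝ) :: (x.map bit ++ (List.range m).map fun i => 1 + z i) := by
  rw [List.map_cons, map_one, List.map_append]
  congr 2
  · have := crd_eval (x.map bit ++ (List.range m).map z) x.length (by simp)
    rw [show (crd x.length).map (ev (x.map bit ++ (List.range m).map z)) =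
      (crd x.length).map (fun f => f (x.map bit ++ (List.range m).map z)) from rfl, this]
    rw [List.take_append, List.take_of_length_le (by simp)]
    simp
  · rw [List.map_map]
    refine List.map_congr_left fun i hi => ?_
    rw [List.mem_range] at hi
    simp only [Function.comp, ev_apply, shf, Pi.add_apply, Pi.one_apply, zc]
    congr 1
    simp only [List.getD_eq_getElem?_getD]
    rw [List.getElem?_append_right (by simp)]
    simp [hi]

/-- Bits are solutions of `z² + z = 0`. -/
theorem onequery_triangular {n s : ℕ} {f : List Bool → Prop} (h : OneQuery n f s) :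
    TriangularWitness n f (20 * (n + s + 1)) := by
  obtain ⟨m, hm, F, hF1, hF2, hF3⟩ := h
  set b : List (List ℝ → ℝ) := 1 :: crd (n + m) with hb
  set B : Set (List ℝ → ℝ) := {f | f ∈ b} ∪ {0} with hB
  have h1 : (1 : List ℝ → ℝ) ∈ B := Or.inl (by simp [hb])
  have h0 : (0 : List ℝ → ℝ) ∈ B := Or.inr rfl
  have hcr : ∀ f ∈ crd (n + m), f ∈ B := fun f hf => Or.inl (by
    rw [hb]; exact List.mem_cons_of_mem _ hf)
  have k1 := shf_cost (n := n) m h1 hcr
  have k2 := k1.trans (val_cost (d := True) F (B := B ∪ {f | f ∈ (List.range m).map (shf n)})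
    (Or.inl h0) (1 :: (crd n ++ (List.range m).map (shf n))) (by
      intro f hf
      rcases List.mem_cons.1 hf with rfl | h
      · exact Or.inl h1
      · rcases List.mem_append.1 h with h | h
        · refine Or.inl (hcr f ?_)
          rw [crd, List.mem_map] at h ⊢
          obtain ⟨i, hi, rfl⟩ := h
          exact ⟨i, by rw [List.mem_range] at hi ⊢; omega, rfl⟩
        · exact Or.inr h))
  obtain ⟨H, hHv, hHlen, hH⟩ := to_prog b (by simp [hb]) (k2.sub Set.subset_union_right)
  have hblen : b.length = 1 + (n + m) := by rw [hb]; simp [crd]; omega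
  have hval : ∀ x : List Bool, x.length = n → ∀ z : ℕ → ℝ, ∃ D : ℝ, 1 ≤ D ∧
      H.val (ini x z m) =
        F.val ((1 : ℝ) :: (x.map bit ++ (List.range m).map fun i => 1 + z i)) * D := by
    intro x hx z
    obtain ⟨D, hD, hv⟩ := hH (x.map bit ++ (List.range m).map z)
    refine ⟨D, hD, ?_⟩
    have hbw : (b.map fun g => g (x.map bit ++ (List.range m).map z)) = ini x z m := by
      have := crd_ini x z (le_refl m)
      rw [hx] at this
      exact this
    rw [hbw] at hv
    rw [hv]
    congr 1
    have := val_map (ev (x.map bit ++ (List.range m).map z)) F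
      (1 :: (crd x.length ++ (List.range m).map (shf x.length)))
    rw [shf_ini x z m, hx] at this
    exact this.symm
  refine ⟨m, by omega, fun _ => 2, bitq, fun i _ => ⟨by show 2 ≤ _; omega, fun j _ =>
    ⟨by rw [bitq_length]; omega, bitq_valid _ _ _ (by omega)⟩⟩, H, ?_, hblen ▸ hHv,
    fun x hx => ?_⟩
  · refine hHlen.trans ?_
    omega
  · rw [hF3 x hx]
    constructor
    · rintro ⟨y, hy, hpos⟩
      refine ⟨(List.range m).map fun i => bit (y.getD i false) - 1, by simp, fun i hi => ?_,
        ?_⟩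
      · rw [bitq_eq, range_getD _ hi]
        rcases bit_mem (y.getD i false) with h | h <;> rw [h] <;> norm_num
      · obtain ⟨D, hD, hv⟩ := hval x hx (fun i => bit (y.getD i false) - 1)
        change 0 < H.val (ini x (fun i => bit (y.getD i false) - 1) m)
        rw [hv]
        refine mul_pos ?_ (by linarith)
        have e1 : ((List.range m).map fun i => (1 + (bit (y.getD i false) - 1) : ℝ)) =
            y.map bit := by
          refine List.ext_getElem (by simp [hy]) ?_
          intro i h1 h2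
          simp only [List.getElem_map, List.getElem_range]
          rw [List.getD_eq_getElem?_getD, List.getElem?_eq_getElem (by simpa using h2)]
          simp only [Option.getD_some]
          ring
        rw [e1, ← List.map_append, val_int]
        exact_mod_cast hpos
    · rintro ⟨z', hz', hz, hpos⟩
      set z : ℕ → ℝ := fun i => z'.getD i 0 with hzd
      obtain ⟨D, hD, hv⟩ := hval x hx z
      have hini : ini x z m = (1 : ℝ) :: (x.map bit ++ z') := by
        rw [hzd, ini_getD x hz' le_rfl, ← hz', List.take_length]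
      rw [← hini, hv] at hpos
      have hD0 : 0 < D := by linarith
      have hpos := (mul_pos_iff_of_pos_right hD0).1 hpos
      classical
      refine ⟨(List.range m).map fun i => decide (z i = 0), by simp, ?_⟩
      have e1 : ((List.range m).map fun i => 1 + z i) =
          (((List.range m).map fun i => decide (z i = 0)).map bit : List ℝ) := by
        rw [List.map_map]
        refine List.map_congr_left fun i hi => ?_
        have h2 := hz i (List.mem_range.1 hi)
        rw [bitq_eq] at h2
        simp only [Function.comp]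
        rcases mul_eq_zero.1 h2 with h | h
        · have h4 : z i = 0 := h
          rw [h4]
          simp [bit]
        · have h4 : z i = -1 := by
            change z i + 1 = 0 at h
            linarith
          rw [h4]
          norm_num [bit]
      rw [e1, ← List.map_append, val_int] at hpos
      exact_mod_cast hpos

end Pool.Agent.SLPQ
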